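import Pool.Agent.TH37.RZ.Fin1
import Pool.Agent.TH142.RZ.Unit
import Pool.Agent.TH37.RZ.Char

/-!
# Locally residually finite varieties of associative rings

A variety of associative rings, given by a set `S` of identities with integer coefficients, is
locally residually finite if and only if the greatest common divisor of the type sums of the
identities in `S` is `1`. Here a type sum of `f` is the sum of the coefficients of `f` at all the
words with a given first letter, a given last letter and given numbers of occurrences of each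
letter.
-/

set_option autoImplicit false

namespace Pool.Agent.Results.MP_8983b8_al.LocallyRF

/-- The free associative ring without unit `ℤ⟨x₀, x₁, x₂, …⟩`. Its basis `FreeSemigroup ℕ` is the
set of nonempty words. -/
abbrev Poly : Type := MonoidAlgebra ℤ (FreeSemigroup ℕ)

/-- The ring `A` satisfies the identity `f = 0`: every homomorphism from the free ring to `A` maps
`f` to `0`. -/
def Satisfies (A : Type) [NonUnitalRing A] (f : Poly) : Prop :=
  ∀ a : ℕ → A, MonoidAlgebra.liftMagma ℤ (FreeSemigroup.lift a) f = 0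

/-- `A` is a finitely generated ring. -/
def FinGen (A : Type) [NonUnitalRing A] : Prop :=
  ∃ s : Set A, s.Finite ∧ NonUnitalSubring.closure s = ⊤

/-- `A` is residually finite: for every nonzero `a` in `A` there is a homomorphism `φ` of `A` onto
a finite ring `B` with `φ a ≠ 0`. -/
def ResiduallyFinite (A : Type) [NonUnitalRing A] : Prop :=
  ∀ a : A, a ≠ 0 → ∃ (B : Type) (_ : NonUnitalRing B) (_ : Finite B) (φ : A →ₙ+* B),
    Function.Surjective φ ∧ φ a ≠ 0

/-- The variety defined by the set `S` of identities is locally residually finite: every finitely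
generated ring satisfying all the identities in `S` is residually finite. -/
def LocallyResiduallyFinite (S : Set Poly) : Prop :=
  ∀ (A : Type) [NonUnitalRing A], (∀ f ∈ S, Satisfies A f) → FinGen A → ResiduallyFinite A

/-- The words `w` and `w'` have the same type: they have the same first letter and the same last
letter, and each letter occurs equally often in both. -/
def SameType (w w' : FreeSemigroup ℕ) : Prop :=
  w.head = w'.head ∧ (w.head :: w.tail).getLast? = (w'.head :: w'.tail).getLast? ∧
    (w.head :: w.tail).Perm (w'.head :: w'.tail)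

/-- The sum of the coefficients of `f` at the words of the same type as `w`. -/
noncomputable def typeSum (f : Poly) (w : FreeSemigroup ℕ) : ℤ :=
  ∑ᶠ (w' : FreeSemigroup ℕ) (_ : SameType w w'), f.coeff w'

theorem sameType_iff (w w' : FreeSemigroup ℕ) :
    SameType w w' ↔ Pool.Agent.TH37.RF.SameType (Pool.Agent.TH37.RF.toL w)
      (Pool.Agent.TH37.RF.toL w') := by
  rw [SameType, Pool.Agent.TH37.RF.SameType, Pool.Agent.TH37.RF.toL, Pool.Agent.TH37.RF.toL,
    List.head?_cons, List.head?_cons, Option.some_inj]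

theorem typeSum_eq (f : Poly) (w : FreeSemigroup ℕ) :
    (∑ᶠ (w' : List ℕ) (_ : Pool.Agent.TH37.RF.SameType (Pool.Agent.TH37.RF.toL w) w'),
      Pool.Agent.TH37.RZ.toP f w') = typeSum f w := by
  rw [Pool.Agent.TH37.RZ.typeSum_eq]
  simp only [typeSum, sameType_iff]

theorem span_iff (T : Set ℤ) :
    Ideal.span T = ⊤ ↔ ∀ p : ℕ, p.Prime → ∃ s ∈ T, ¬ (p : ℤ) ∣ s := by
  constructor
  · intro h p hp
    by_contra hcon
    push Not at hcon
    have h1 : Ideal.span T ≤ Ideal.span {(p : ℤ)} := by
      rw [Ideal.span_le]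
      intro s hs
      exact Ideal.mem_span_singleton.2 (hcon s hs)
    rw [h] at h1
    have h2 : (1 : ℤ) ∈ Ideal.span {(p : ℤ)} := h1 trivial
    rw [Ideal.mem_span_singleton] at h2
    have h3 : p ∣ 1 := by exact_mod_cast h2
    exact hp.one_lt.ne' (Nat.dvd_one.1 h3)
  · intro h
    by_contra hne
    obtain ⟨g, hg⟩ := (IsPrincipalIdealRing.principal (Ideal.span T)).principal
    have hg' : Ideal.span T = Ideal.span {g} := hg
    have hdvd : ∀ s ∈ T, g ∣ s := by
      intro s hs
      rw [← Ideal.mem_span_singleton, ← hg']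
      exact Ideal.subset_span hs
    have hgu : g.natAbs ≠ 1 := by
      intro h1
      apply hne
      rw [hg', Ideal.span_singleton_eq_top, Int.isUnit_iff_natAbs_eq]
      exact h1
    obtain ⟨p, hp, hpg⟩ := Nat.exists_prime_and_dvd hgu
    obtain ⟨s, hs, hps⟩ := h p hp
    apply hps
    exact (Int.natCast_dvd.2 hpg).trans (hdvd s hs)

/-- For a set `S` of identities of associative rings the following are equivalent: the variety
defined by `S` is locally residually finite; the greatest common divisor of all the type sums of the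
identities in `S` is `1` (they generate the unit ideal of `ℤ`); for every prime number `p` some ring
with `p x = 0` and `x (y z - z y) t = 0` does not lie in the variety. -/
theorem result (S : Set Poly) :
    List.TFAE [LocallyResiduallyFinite S,
      Ideal.span {s : ℤ | ∃ f ∈ S, ∃ w : FreeSemigroup ℕ, s = typeSum f w} = ⊤,
      ∀ p : ℕ, p.Prime → ∃ (A : Type) (_ : NonUnitalRing A), (∀ x : A, p • x = 0) ∧
        (∀ x y z t : A, x * (y * z - z * y) * t = 0) ∧ ¬ ∀ f ∈ S, Satisfies A f] := by
  have h13 : LocallyResiduallyFinite S → ∀ p : ℕ, p.Prime → ∃ (A : Type) (_ : NonUnitalRing A),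
      (∀ x : A, p • x = 0) ∧
        (∀ x y z t : A, x * (y * z - z * y) * t = 0) ∧ ¬ ∀ f ∈ S, Satisfies A f := by
    intro h p hp
    obtain ⟨A, i1, hfg, hpA, hid, a, ha, hB⟩ := Pool.Agent.TH37.RZ.nec p hp
    refine ⟨A, i1, hpA, hid, fun hS => ?_⟩
    obtain ⟨B, j1, j2, φ, -, hφ⟩ := h A hS hfg a ha
    exact hφ (hB B φ)
  have h32 : (∀ p : ℕ, p.Prime → ∃ (A : Type) (_ : NonUnitalRing A),
      (∀ x : A, p • x = 0) ∧
        (∀ x y z t : A, x * (y * z - z * y) * t = 0) ∧ ¬ ∀ f ∈ S, Satisfies A f) →
      Ideal.span {s : ℤ | ∃ f ∈ S, ∃ w : FreeSemigroup ℕ, s = typeSum f w} = ⊤ := by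
    intro h
    rw [span_iff]
    intro p hp
    obtain ⟨A, i1, hpA, hid, hS⟩ := h p hp
    by_contra hcon
    push Not at hcon
    apply hS
    intro f hf
    rw [Satisfies, Pool.Agent.TH37.RZ.satisfies_iff]
    apply Pool.Agent.TH37.RZ.sat_trivial p hpA hid
    intro w hw
    cases w with
    | nil => exact absurd rfl hw
    | cons x l =>
      have h1 := typeSum_eq f ⟨x, l⟩
      have h2 : (∑ᶠ (w' : List ℕ) (_ : Pool.Agent.TH37.RF.SameType (x :: l) w'),
        Pool.Agent.TH37.RZ.toP f w') = typeSum f ⟨x, l⟩ := h1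
      rw [h2]
      exact hcon _ ⟨f, hf, _, rfl⟩
  have h21 : Ideal.span {s : ℤ | ∃ f ∈ S, ∃ w : FreeSemigroup ℕ, s = typeSum f w} = ⊤ →
      LocallyResiduallyFinite S := by
    intro h A _ hS
    rintro ⟨s, hs, hgen⟩ a ha
    rw [span_iff] at h
    refine Pool.Agent.TH37.RZ.nonunital_rf
      (fun C _ ε h1 N => Pool.Agent.TH37.RZ.Ch.no_small ε h1 N)
      (fun C _ B c h1 h2 => Pool.Agent.TH142.RZU.unit_id B c h1 h2)
      (Pool.Agent.TH37.RZ.toP '' S) ?_ ?_ s hs hgen a ha
    · intro p hp
      obtain ⟨s, ⟨f, hf, w, rfl⟩, hps⟩ := h p hp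
      refine ⟨_, ⟨f, hf, rfl⟩, Pool.Agent.TH37.RF.toL w, by simp [Pool.Agent.TH37.RF.toL], ?_⟩
      rw [typeSum_eq]
      exact hps
    · rintro _ ⟨f, hf, rfl⟩
      rw [← Pool.Agent.TH37.RZ.satisfies_iff]
      exact hS f hf
  tfae_have 1 → 3 := h13
  tfae_have 3 → 2 := h32
  tfae_have 2 → 1 := h21
  tfae_finish

end Pool.Agent.Results.MP_8983b8_al.LocallyRF
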